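import Pool.Agent.helper74.VQ.SpecC

/-!
# Project VQ (MP_07c750_an), row VFD: evolution of synthesised beams

Differentiation under the integral over the window `GW 2 R` of phase space. `VFD_G S f` are families of functions on
phase space, depending on a parameter in `S`, continuous for energies `|E| ≤ 1/8`, with locally bounded supports.
-/

set_option autoImplicit false

open scoped MatrixGroups ContDiff Topology UpperHalfPlane ComplexConjugate ENNReal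
open UpperHalfPlane MeasureTheory Filter Set

namespace Pool.Agent.VQ

open Pool.Agent.RS

noncomputable section

/-! ## Families of functions on phase space -/

/-- families continuous in the parameter and the point of phase space, with locally bounded supports -/
structure VFD_G {P E : Type} [TopologicalSpace P] [NormedAddCommGroup E] (S : Set P)
    (f : P → SL(2, ℝ) × ℝ → E) : Prop where
  cont : ContinuousOn (fun x : P × (SL(2, ℝ) × ℝ) => f x.1 x.2) {x | x.1 ∈ S ∧ |x.2.2| ≤ 1 / 8}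
  supp : ∀ p0 ∈ S, ∃ N ∈ 𝓝 p0, ∃ ρ : ℝ, ∀ p ∈ N, p ∈ S → ∀ q : SL(2, ℝ) × ℝ, |q.2| ≤ 1 / 8 →
    f p q ≠ 0 → dist (q.1 • I : ℍ) I ≤ ρ

/-- the compact sets of phase space -/
def VFD_K (W : Set ℝ) (ρ : ℝ) : Set (SL(2, ℝ) × ℝ) := {g : SL(2, ℝ) | dist (g • I : ℍ) I ≤ ρ} ×ˢ W

theorem VFD_K_compact {W : Set ℝ} (hW : IsCompact W) (ρ : ℝ) : IsCompact (VFD_K W ρ) := by
  have h1 : IsCompact {g : SL(2, ℝ) | (g • I : ℍ) ∈ Metric.closedBall (I : ℍ) ρ} :=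
    A_GLC.2.2.1 _ (isCompact_closedBall _ _)
  exact h1.prod hW

theorem VFD_K_fin {W : Set ℝ} (hW : IsCompact W) (ρ : ℝ) : mP (VFD_K W ρ) < ⊤ := by
  have h1 : IsCompact {g : SL(2, ℝ) | (g • I : ℍ) ∈ Metric.closedBall (I : ℍ) ρ} :=
    A_GLC.2.2.1 _ (isCompact_closedBall _ _)
  have h2 : mG {g : SL(2, ℝ) | dist (g • I : ℍ) I ≤ ρ} < ⊤ := A_GMG.2.1 _ h1
  unfold VFD_K mP
  rw [Measure.prod_prod]
  exact ENNReal.mul_lt_top h2 hW.measure_lt_top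

theorem VFD_K_meas {W : Set ℝ} (hW : IsCompact W) (ρ : ℝ) : MeasurableSet (VFD_K W ρ) := by
  have : SecondCountableTopology SL(2, ℝ) := A_GLC.2.1
  exact (VFD_K_compact hW ρ).measurableSet

theorem VFD_win_meas {W : Set ℝ} (hW : IsCompact W) :
    MeasurableSet ((univ : Set SL(2, ℝ)) ×ˢ W) := MeasurableSet.univ.prod hW.measurableSet

section

variable {P E : Type} [TopologicalSpace P] [NormedAddCommGroup E] {S : Set P}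
  {f : P → SL(2, ℝ) × ℝ → E}

/-- a locally uniform bound -/
theorem VFD_bd (hf : VFD_G S f) {W : Set ℝ} (hW : IsCompact W) (hW8 : ∀ e ∈ W, |e| ≤ 1 / 8)
    {p0 : P} (hp0 : p0 ∈ S) : ∃ N ∈ 𝓝 p0, ∃ C ρ : ℝ, 0 ≤ C ∧ ∀ p ∈ N, p ∈ S →
      ∀ q ∈ (univ : Set SL(2, ℝ)) ×ˢ W, ‖f p q‖ ≤ (VFD_K W ρ).indicator (fun _ => C) q := by
  obtain ⟨N, hN, ρ, hρ⟩ := hf.supp p0 hp0
  have hK := VFD_K_compact hW ρ
  have hKW : ∀ q ∈ VFD_K W ρ, |q.2| ≤ 1 / 8 := fun q hq => hW8 _ hq.2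
  have hc0 : ContinuousOn (fun q => f p0 q) (VFD_K W ρ) := by
    have h1 : ContinuousOn (fun q : SL(2, ℝ) × ℝ => ((p0, q) : P × (SL(2, ℝ) × ℝ)))
        (VFD_K W ρ) := (Continuous.prodMk_right p0).continuousOn
    exact hf.cont.comp h1 fun q hq => ⟨hp0, hKW q hq⟩
  obtain ⟨C, hC⟩ := hK.exists_bound_of_continuousOn hc0
  have h2 : ∀ᶠ p in 𝓝 p0, ∀ q ∈ VFD_K W ρ, p ∈ S → |q.2| ≤ 1 / 8 → ‖f p q‖ < |C| + 1 := by
    refine hK.eventually_forall_of_forall_eventually fun q hq => ?_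
    have h3 : ContinuousWithinAt (fun x : P × (SL(2, ℝ) × ℝ) => ‖f x.1 x.2‖)
        {x | x.1 ∈ S ∧ |x.2.2| ≤ 1 / 8} (p0, q) := (hf.cont (p0, q) ⟨hp0, hKW q hq⟩).norm
    have h4 : ‖f p0 q‖ < |C| + 1 := by
      have := hC q hq
      have := le_abs_self C
      linarith
    have h5 : ∀ᶠ x in 𝓝[{x : P × (SL(2, ℝ) × ℝ) | x.1 ∈ S ∧ |x.2.2| ≤ 1 / 8}] (p0, q),
        ‖f x.1 x.2‖ < |C| + 1 := h3.eventually_lt_const h4
    rw [eventually_nhdsWithin_iff] at h5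
    filter_upwards [h5] with x hx h6 h7
    exact hx ⟨h6, h7⟩
  refine ⟨N ∩ {p | ∀ q ∈ VFD_K W ρ, p ∈ S → |q.2| ≤ 1 / 8 → ‖f p q‖ < |C| + 1},
    Filter.inter_mem hN h2, |C| + 1, ρ, by positivity, ?_⟩
  intro p hp hpS q hq
  by_cases hqK : q ∈ VFD_K W ρ
  · rw [indicator_of_mem hqK]
    exact (hp.2 q hqK hpS (hKW q hqK)).le
  · rw [indicator_of_notMem hqK]
    have h6 : f p q = 0 := by
      by_contra h7
      exact hqK ⟨hρ p hp.1 hpS q (hW8 _ hq.2) h7, hq.2⟩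
    rw [h6, norm_zero]

theorem VFD_ind_int {W : Set ℝ} (hW : IsCompact W) (ρ C : ℝ) :
    Integrable ((VFD_K W ρ).indicator fun _ => C) (mP.restrict ((univ : Set SL(2, ℝ)) ×ˢ W)) := by
  rw [integrable_indicator_iff (VFD_K_meas hW ρ)]
  refine integrableOn_const ?_
  have h1 := VFD_K_fin hW ρ
  exact ((Measure.restrict_apply_le _ _).trans_lt h1).ne

variable [NormedSpace ℂ E]

theorem VFD_aesm (hf : VFD_G S f) {W : Set ℝ} (hW : IsCompact W) (hW8 : ∀ e ∈ W, |e| ≤ 1 / 8)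
    {v : SL(2, ℝ) × ℝ → ℂ} (hv : Measurable v) {p : P} (hp : p ∈ S) :
    AEStronglyMeasurable (fun q => v q • f p q) (mP.restrict ((univ : Set SL(2, ℝ)) ×ˢ W)) := by
  have : SecondCountableTopology SL(2, ℝ) := A_GLC.2.1
  have h1 : ContinuousOn (fun q => f p q) ((univ : Set SL(2, ℝ)) ×ˢ W) := by
    have h1 : ContinuousOn (fun q : SL(2, ℝ) × ℝ => ((p, q) : P × (SL(2, ℝ) × ℝ)))
        ((univ : Set SL(2, ℝ)) ×ˢ W) := (Continuous.prodMk_right p).continuousOn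
    exact hf.cont.comp h1 fun q hq => ⟨hp, hW8 _ hq.2⟩
  exact hv.aestronglyMeasurable.smul (h1.aestronglyMeasurable (VFD_win_meas hW))

theorem VFD_int (hf : VFD_G S f) {W : Set ℝ} (hW : IsCompact W) (hW8 : ∀ e ∈ W, |e| ≤ 1 / 8)
    {v : SL(2, ℝ) × ℝ → ℂ} (hv : Measurable v) {b : ℝ} (hb : ∀ q, ‖v q‖ ≤ b) {p : P} (hp : p ∈ S) :
    Integrable (fun q => v q • f p q) (mP.restrict ((univ : Set SL(2, ℝ)) ×ˢ W)) := by
  obtain ⟨N, hN, C, ρ, hC, h1⟩ := VFD_bd hf hW hW8 hp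
  refine (VFD_ind_int hW ρ (b * C)).mono' (VFD_aesm hf hW hW8 hv hp) ?_
  refine (ae_restrict_iff' (VFD_win_meas hW)).2 (Eventually.of_forall fun q hq => ?_)
  have h2 := h1 p (mem_of_mem_nhds hN) hp q hq
  have hb0 : 0 ≤ b := (norm_nonneg _).trans (hb q)
  rw [norm_smul]
  refine (mul_le_mul (hb q) h2 (norm_nonneg _) hb0).trans_eq ?_
  by_cases hqK : q ∈ VFD_K W ρ
  · rw [indicator_of_mem hqK, indicator_of_mem hqK]
  · rw [indicator_of_notMem hqK, indicator_of_notMem hqK, mul_zero]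

/-- continuity of the integral -/
theorem VFD_cont [FirstCountableTopology P] [NormedSpace ℝ E] (hf : VFD_G S f) {W : Set ℝ}
    (hW : IsCompact W) (hW8 : ∀ e ∈ W, |e| ≤ 1 / 8)
    {v : SL(2, ℝ) × ℝ → ℂ} (hv : Measurable v) {b : ℝ} (hb : ∀ q, ‖v q‖ ≤ b) :
    ContinuousOn (fun p => ∫ q in (univ : Set SL(2, ℝ)) ×ˢ W, v q • f p q ∂mP) S := by
  intro p0 hp0
  obtain ⟨N, hN, C, ρ, hC, h1⟩ := VFD_bd hf hW hW8 hp0
  have hNS : ∀ᶠ p in 𝓝[S] p0, p ∈ N ∧ p ∈ S :=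
    (Filter.inter_mem (mem_nhdsWithin_of_mem_nhds hN) self_mem_nhdsWithin)
  refine continuousWithinAt_of_dominated (bound := (VFD_K W ρ).indicator fun _ => b * C)
    ?_ ?_ (VFD_ind_int hW ρ (b * C)) ?_
  · filter_upwards [hNS] with p hp
    exact VFD_aesm hf hW hW8 hv hp.2
  · filter_upwards [hNS] with p hp
    refine (ae_restrict_iff' (VFD_win_meas hW)).2 (Eventually.of_forall fun q hq => ?_)
    have h2 := h1 p hp.1 hp.2 q hq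
    have hb0 : 0 ≤ b := (norm_nonneg _).trans (hb q)
    rw [norm_smul]
    refine (mul_le_mul (hb q) h2 (norm_nonneg _) hb0).trans_eq ?_
    by_cases hqK : q ∈ VFD_K W ρ
    · rw [indicator_of_mem hqK, indicator_of_mem hqK]
    · rw [indicator_of_notMem hqK, indicator_of_notMem hqK, mul_zero]
  · refine (ae_restrict_iff' (VFD_win_meas hW)).2 (Eventually.of_forall fun q hq => ?_)
    have h3 : ContinuousWithinAt (fun p => f p q) S p0 := by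
      have h4 : ContinuousOn (fun p : P => ((p, q) : P × (SL(2, ℝ) × ℝ))) S :=
        (Continuous.prodMk_left q).continuousOn
      exact (hf.cont.comp h4 fun p hp => ⟨hp, hW8 _ hq.2⟩) p0 hp0
    exact h3.const_smul (v q)

end

/-- differentiation under the integral -/
theorem VFD_fderiv {H E : Type} [NormedAddCommGroup H] [NormedSpace ℝ H] [NormedAddCommGroup E]
    [NormedSpace ℂ E] [NormedSpace ℝ E] [SMulCommClass ℝ ℂ E] {S : Set H} (hS : IsOpen S)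
    {f : H → SL(2, ℝ) × ℝ → E} {f' : H → SL(2, ℝ) × ℝ → (H →L[ℝ] E)} (hf : VFD_G S f)
    (hf' : VFD_G S f')
    (hd : ∀ p ∈ S, ∀ q : SL(2, ℝ) × ℝ, |q.2| ≤ 1 / 8 → HasFDerivAt (fun p => f p q) (f' p q) p)
    {W : Set ℝ} (hW : IsCompact W) (hW8 : ∀ e ∈ W, |e| ≤ 1 / 8)
    {v : SL(2, ℝ) × ℝ → ℂ} (hv : Measurable v) {b : ℝ} (hb : ∀ q, ‖v q‖ ≤ b) {p0 : H}
    (hp0 : p0 ∈ S) :
    HasFDerivAt (fun p => ∫ q in (univ : Set SL(2, ℝ)) ×ˢ W, v q • f p q ∂mP)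
      (∫ q in (univ : Set SL(2, ℝ)) ×ˢ W, v q • f' p0 q ∂mP) p0 := by
  obtain ⟨N, hN, C, ρ, hC, h1⟩ := VFD_bd hf' hW hW8 hp0
  have hNS : N ∩ S ∈ 𝓝 p0 := Filter.inter_mem hN (hS.mem_nhds hp0)
  have hb0 : 0 ≤ b := (norm_nonneg _).trans (hb (1, 0))
  refine hasFDerivAt_integral_of_dominated_of_fderiv_le (𝕜 := ℝ) (s := N ∩ S)
    (F := fun p q => v q • f p q) (F' := fun p q => v q • f' p q) (x₀ := p0)
    (bound := (VFD_K W ρ).indicator fun _ => b * C) hNS ?_ ?_ ?_ ?_ (VFD_ind_int hW ρ (b * C)) ?_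
  · filter_upwards [hS.mem_nhds hp0] with p hp
    exact VFD_aesm hf hW hW8 hv hp
  · exact VFD_int hf hW hW8 hv hb hp0
  · exact VFD_aesm hf' hW hW8 hv hp0
  · refine (ae_restrict_iff' (VFD_win_meas hW)).2 (Eventually.of_forall fun q hq p hp => ?_)
    have h2 := h1 p hp.1 hp.2 q hq
    rw [norm_smul]
    refine (mul_le_mul (hb q) h2 (norm_nonneg _) hb0).trans_eq ?_
    by_cases hqK : q ∈ VFD_K W ρ
    · rw [indicator_of_mem hqK, indicator_of_mem hqK]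
    · rw [indicator_of_notMem hqK, indicator_of_notMem hqK, mul_zero]
  · refine (ae_restrict_iff' (VFD_win_meas hW)).2 (Eventually.of_forall fun q hq p hp => ?_)
    exact (hd p hp.2 q (hW8 _ hq.2)).const_smul (v q)

/-- differentiation under the integral, one real variable -/
theorem VFD_deriv {E : Type} [NormedAddCommGroup E]
    [NormedSpace ℂ E] [NormedSpace ℝ E] [SMulCommClass ℝ ℂ E]
    {f f' : ℝ → SL(2, ℝ) × ℝ → E} (hf : VFD_G univ f) (hf' : VFD_G univ f')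
    (hd : ∀ (p : ℝ) (q : SL(2, ℝ) × ℝ), |q.2| ≤ 1 / 8 → HasDerivAt (fun p => f p q) (f' p q) p)
    {W : Set ℝ} (hW : IsCompact W) (hW8 : ∀ e ∈ W, |e| ≤ 1 / 8)
    {v : SL(2, ℝ) × ℝ → ℂ} (hv : Measurable v) {b : ℝ} (hb : ∀ q, ‖v q‖ ≤ b) (p0 : ℝ) :
    HasDerivAt (fun p => ∫ q in (univ : Set SL(2, ℝ)) ×ˢ W, v q • f p q ∂mP)
      (∫ q in (univ : Set SL(2, ℝ)) ×ˢ W, v q • f' p0 q ∂mP) p0 := by
  obtain ⟨N, hN, C, ρ, hC, h1⟩ := VFD_bd hf' hW hW8 (mem_univ p0)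
  have hb0 : 0 ≤ b := (norm_nonneg _).trans (hb (1, 0))
  refine (hasDerivAt_integral_of_dominated_loc_of_deriv_le (𝕜 := ℝ) (s := N)
    (F := fun p q => v q • f p q) (F' := fun p q => v q • f' p q) (x₀ := p0)
    (bound := (VFD_K W ρ).indicator fun _ => b * C) hN ?_ ?_ ?_ ?_
    (VFD_ind_int hW ρ (b * C)) ?_).2
  · exact Eventually.of_forall fun p => VFD_aesm hf hW hW8 hv (mem_univ p)
  · exact VFD_int hf hW hW8 hv hb (mem_univ p0)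
  · exact VFD_aesm hf' hW hW8 hv (mem_univ p0)
  · refine (ae_restrict_iff' (VFD_win_meas hW)).2 (Eventually.of_forall fun q hq p hp => ?_)
    have h2 := h1 p hp (mem_univ p) q hq
    rw [norm_smul]
    refine (mul_le_mul (hb q) h2 (norm_nonneg _) hb0).trans_eq ?_
    by_cases hqK : q ∈ VFD_K W ρ
    · rw [indicator_of_mem hqK, indicator_of_mem hqK]
    · rw [indicator_of_notMem hqK, indicator_of_notMem hqK, mul_zero]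
  · refine (ae_restrict_iff' (VFD_win_meas hW)).2 (Eventually.of_forall fun q hq p hp => ?_)
    exact (hd p q (hW8 _ hq.2)).const_smul (v q)

/-! ## Operations on families -/

theorem VFD_congr {P E : Type} [TopologicalSpace P] [NormedAddCommGroup E] {S : Set P}
    {f g : P → SL(2, ℝ) × ℝ → E} (hf : VFD_G S f) (h : ∀ p ∈ S, ∀ q, g p q = f p q) :
    VFD_G S g := by
  refine ⟨?_, ?_⟩
  · exact hf.cont.congr fun x hx => h x.1 hx.1 x.2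
  · intro p0 hp0
    obtain ⟨N, hN, ρ, hρ⟩ := hf.supp p0 hp0
    refine ⟨N, hN, ρ, fun p hp hpS q hq hne => hρ p hp hpS q hq ?_⟩
    rwa [← h p hpS q]

theorem VFD_comp {P P' E : Type} [TopologicalSpace P] [TopologicalSpace P'] [NormedAddCommGroup E]
    {S : Set P} (hS : IsOpen S) {f : P' → SL(2, ℝ) × ℝ → E} (hf : VFD_G univ f) {φ : P → P'}
    (hφ : ContinuousOn φ S) : VFD_G S (fun p => f (φ p)) := by
  refine ⟨?_, ?_⟩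
  · have h1 : ContinuousOn (fun x : P × (SL(2, ℝ) × ℝ) => ((φ x.1, x.2) : P' × (SL(2, ℝ) × ℝ)))
        {x | x.1 ∈ S ∧ |x.2.2| ≤ 1 / 8} :=
      (hφ.comp continuousOn_fst fun x hx => hx.1).prodMk continuousOn_snd
    exact hf.cont.comp h1 fun x hx => ⟨mem_univ _, hx.2⟩
  · intro p0 hp0
    obtain ⟨N, hN, ρ, hρ⟩ := hf.supp (φ p0) (mem_univ _)
    have h1 : ContinuousAt φ p0 := hφ.continuousAt (hS.mem_nhds hp0)
    exact ⟨φ ⁻¹' N, h1 hN, ρ, fun p hp _ q hq hne => hρ (φ p) hp (mem_univ _) q hq hne⟩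

/-- supports: families on `ℝ × ℍ` -/
theorem VFD_mk {E : Type} [NormedAddCommGroup E] {f : ℝ × ℍ → SL(2, ℝ) × ℝ → E}
    (hc : ContinuousOn (fun x : (ℝ × ℍ) × (SL(2, ℝ) × ℝ) => f x.1 x.2) {x | |x.2.2| ≤ 1 / 8})
    (hs : ∀ (s : ℝ) (z : ℍ) (q : SL(2, ℝ) × ℝ), |q.2| ≤ 1 / 8 → f (s, z) q ≠ 0 →
      dist z (q.1 • I : ℍ) ≤ 1 / 2 + 6 / 5 * |s|) : VFD_G univ f := by
  refine ⟨?_, ?_⟩
  · exact hc.mono fun x hx => hx.2
  · rintro ⟨s0, z0⟩ -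
    refine ⟨Metric.ball s0 1 ×ˢ Metric.ball z0 1, prod_mem_nhds (Metric.ball_mem_nhds _ one_pos)
      (Metric.ball_mem_nhds _ one_pos), 1 / 2 + 6 / 5 * (|s0| + 1) + 1 + dist z0 I, ?_⟩
    rintro ⟨s, z⟩ ⟨h1, h2⟩ - q hq hne
    have h3 := hs s z q hq hne
    have h4 : |s| ≤ |s0| + 1 := by
      have h5 : |s - s0| < 1 := by
        rw [← Real.dist_eq]
        exact h1
      have h6 := abs_sub_abs_le_abs_sub s s0
      linarith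
    have h5 : dist z z0 < 1 := h2
    have h6 : dist (q.1 • I : ℍ) I ≤ dist (q.1 • I : ℍ) z + dist z I := dist_triangle _ _ _
    have h7 : dist z I ≤ dist z z0 + dist z0 I := dist_triangle _ _ _
    rw [dist_comm (q.1 • I : ℍ) z] at h6
    linarith

theorem VFD_ofC : ContinuousOn (fun w : ℂ => (ofComplex w : ℍ)) {w : ℂ | 0 < w.im} :=
  fun _ hw => (QU.CA1_ofc hw).continuousWithinAt

/-- locally zero functions on `ℍ` -/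
theorem VFD_zero {φ : ℍ → ℂ} {z : ℍ} (h : φ =ᶠ[𝓝 z] 0) :
    φ z = 0 ∧ fderiv ℝ (QU.onC φ) (z : ℂ) = 0 ∧ fderiv ℝ (fderiv ℝ (QU.onC φ)) (z : ℂ) = 0 ∧
      QU.lap φ z = 0 := by
  have h2 : QU.onC φ =ᶠ[𝓝 (z : ℂ)] 0 := by
    have h3 : Tendsto ofComplex (𝓝 (z : ℂ)) (𝓝 z) := by
      have h4 : ContinuousAt ofComplex (z : ℂ) := QU.CA1_ofc (QU.CA1_mem z)
      have h5 : ofComplex (z : ℂ) = z := ofComplex_apply z
      unfold ContinuousAt at h4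
      rwa [h5] at h4
    have := h3.eventually h
    filter_upwards [this] with w hw
    exact hw
  have h6 : fderiv ℝ (QU.onC φ) =ᶠ[𝓝 (z : ℂ)] fderiv ℝ (0 : ℂ → ℂ) := h2.fderiv
  have h0 : fderiv ℝ (0 : ℂ → ℂ) = 0 := by
    funext w
    exact congrFun (fderiv_zero (𝕜 := ℝ) (E := ℂ) (F := ℂ)) w
  rw [h0] at h6
  have h7 : fderiv ℝ (fderiv ℝ (QU.onC φ)) (z : ℂ) = 0 := by
    rw [h6.fderiv_eq]
    exact congrFun (fderiv_zero (𝕜 := ℝ) (E := ℂ) (F := ℂ →L[ℝ] ℂ)) (z : ℂ)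
  refine ⟨h.eq_of_nhds, h6.eq_of_nhds, h7, ?_⟩
  unfold QU.lap
  rw [h7]
  simp

/-- the derivatives of `∫ v q * f w q` in the variable `w` -/
theorem VFD_C2 {f : ℍ → SL(2, ℝ) × ℝ → ℂ}
    (h0 : VFD_G univ f)
    (h1 : VFD_G univ fun (z : ℍ) q => fderiv ℝ (QU.onC fun z' => f z' q) (z : ℂ))
    (h2 : VFD_G univ fun (z : ℍ) q => fderiv ℝ (fderiv ℝ (QU.onC fun z' => f z' q)) (z : ℂ))
    (hcd : ∀ q : SL(2, ℝ) × ℝ, |q.2| ≤ 1 / 8 → QU.CD 2 fun z => f z q)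
    {W : Set ℝ} (hW : IsCompact W) (hW8 : ∀ e ∈ W, |e| ≤ 1 / 8)
    {v : SL(2, ℝ) × ℝ → ℂ} (hv : Measurable v) {b : ℝ} (hb : ∀ q, ‖v q‖ ≤ b) :
    QU.CD 2 (fun z => ∫ q in (univ : Set SL(2, ℝ)) ×ˢ W, v q * f z q ∂mP) ∧
    ∀ z, QU.lap (fun z => ∫ q in (univ : Set SL(2, ℝ)) ×ˢ W, v q * f z q ∂mP) z =
      ∫ q in (univ : Set SL(2, ℝ)) ×ˢ W, v q * QU.lap (fun z' => f z' q) z ∂mP := by
  have hS : IsOpen {w : ℂ | 0 < w.im} := QU.CA1_open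
  have g0 : VFD_G {w : ℂ | 0 < w.im} (fun w q => QU.onC (fun z => f z q) w) :=
    VFD_comp hS h0 VFD_ofC
  have g1 : VFD_G {w : ℂ | 0 < w.im} (fun w q => fderiv ℝ (QU.onC fun z => f z q) w) := by
    have g3 := VFD_comp (P' := ℍ) (φ := fun w : ℂ => (ofComplex w : ℍ)) hS h1 VFD_ofC
    refine VFD_congr g3 fun w hw q => ?_
    show fderiv ℝ (QU.onC fun z => f z q) w =
      fderiv ℝ (QU.onC fun z => f z q) ((ofComplex w : ℍ) : ℂ)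
    rw [QU.CA1_coe hw]
  have g2 : VFD_G {w : ℂ | 0 < w.im} (fun w q => fderiv ℝ (fderiv ℝ (QU.onC fun z => f z q)) w) := by
    have g3 := VFD_comp (P' := ℍ) (φ := fun w : ℂ => (ofComplex w : ℍ)) hS h2 VFD_ofC
    refine VFD_congr g3 fun w hw q => ?_
    show fderiv ℝ (fderiv ℝ (QU.onC fun z => f z q)) w =
      fderiv ℝ (fderiv ℝ (QU.onC fun z => f z q)) ((ofComplex w : ℍ) : ℂ)
    rw [QU.CA1_coe hw]
  have hat : ∀ w ∈ {w : ℂ | 0 < w.im}, ∀ q : SL(2, ℝ) × ℝ, |q.2| ≤ 1 / 8 →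
      ContDiffAt ℝ 2 (QU.onC fun z => f z q) w := fun w hw q hq =>
    (hcd q hq).contDiffAt (hS.mem_nhds hw)
  have d1 : ∀ w ∈ {w : ℂ | 0 < w.im},
      HasFDerivAt (fun w => ∫ q in (univ : Set SL(2, ℝ)) ×ˢ W, v q • QU.onC (fun z => f z q) w ∂mP)
      (∫ q in (univ : Set SL(2, ℝ)) ×ˢ W, v q • fderiv ℝ (QU.onC fun z => f z q) w ∂mP) w := by
    intro w hw
    refine VFD_fderiv hS g0 g1 (fun p hp q hq => ?_) hW hW8 hv hb hw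
    exact ((hat p hp q hq).differentiableAt (by norm_num)).hasFDerivAt
  have d2 : ∀ w ∈ {w : ℂ | 0 < w.im},
      HasFDerivAt (fun w => ∫ q in (univ : Set SL(2, ℝ)) ×ˢ W,
        v q • fderiv ℝ (QU.onC fun z => f z q) w ∂mP)
      (∫ q in (univ : Set SL(2, ℝ)) ×ˢ W, v q • fderiv ℝ (fderiv ℝ (QU.onC fun z => f z q)) w ∂mP) w := by
    intro w hw
    refine VFD_fderiv hS g1 g2 (fun p hp q hq => ?_) hW hW8 hv hb hw
    have h3 : ContDiffAt ℝ 1 (fderiv ℝ (QU.onC fun z => f z q)) p :=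
      (hat p hp q hq).fderiv_right (by norm_num)
    exact (h3.differentiableAt (by norm_num)).hasFDerivAt
  have c2 := VFD_cont g2 hW hW8 hv hb
  set Φ : ℍ → ℂ := fun z => ∫ q in (univ : Set SL(2, ℝ)) ×ˢ W, v q * f z q ∂mP with hΦ
  set F1 : ℂ → (ℂ →L[ℝ] ℂ) := fun w => ∫ q in (univ : Set SL(2, ℝ)) ×ˢ W,
    v q • fderiv ℝ (QU.onC fun z => f z q) w ∂mP with hF1
  set F2 : ℂ → (ℂ →L[ℝ] ℂ →L[ℝ] ℂ) := fun w => ∫ q in (univ : Set SL(2, ℝ)) ×ˢ W,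
    v q • fderiv ℝ (fderiv ℝ (QU.onC fun z => f z q)) w ∂mP with hF2
  have e1 : ∀ w ∈ {w : ℂ | 0 < w.im}, HasFDerivAt (QU.onC Φ) (F1 w) w := d1
  have e2 : ∀ w ∈ {w : ℂ | 0 < w.im}, fderiv ℝ (QU.onC Φ) =ᶠ[𝓝 w] F1 := by
    intro w hw
    filter_upwards [hS.mem_nhds hw] with w' hw'
    exact (e1 w' hw').fderiv
  have e3 : ∀ w ∈ {w : ℂ | 0 < w.im}, HasFDerivAt (fderiv ℝ (QU.onC Φ)) (F2 w) w := by
    intro w hw
    exact (d2 w hw).congr_of_eventuallyEq (e2 w hw)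
  have e4 : ∀ w ∈ {w : ℂ | 0 < w.im}, fderiv ℝ (fderiv ℝ (QU.onC Φ)) w = F2 w :=
    fun w hw => (e3 w hw).fderiv
  refine ⟨?_, ?_⟩
  · unfold QU.CD
    have h3 : ContDiffOn ℝ 0 (fderiv ℝ (fderiv ℝ (QU.onC Φ))) {w : ℂ | 0 < w.im} :=
      contDiffOn_zero.2 (c2.congr e4)
    have h4 : ContDiffOn ℝ (0 + 1) (fderiv ℝ (QU.onC Φ)) {w : ℂ | 0 < w.im} :=
      (contDiffOn_succ_iff_fderiv_of_isOpen hS).2 ⟨fun w hw =>
        (e3 w hw).differentiableAt.differentiableWithinAt, by simp, h3⟩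
    have h5 : ContDiffOn ℝ (0 + 1 + 1) (QU.onC Φ) {w : ℂ | 0 < w.im} :=
      (contDiffOn_succ_iff_fderiv_of_isOpen hS).2 ⟨fun w hw =>
        (e1 w hw).differentiableAt.differentiableWithinAt, by simp, h4⟩
    have h6 : (0 + 1 + 1 : WithTop ℕ∞) = 2 := by norm_num
    rwa [h6] at h5
  · intro z
    have hz : (z : ℂ) ∈ {w : ℂ | 0 < w.im} := QU.CA1_mem z
    have i2 := VFD_int g2 hW hW8 hv hb hz
    have k1 : ∀ a c : ℂ, F2 (z : ℂ) a c = ∫ q in (univ : Set SL(2, ℝ)) ×ˢ W,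
        v q * fderiv ℝ (fderiv ℝ (QU.onC fun z => f z q)) (z : ℂ) a c ∂mP := by
      intro a c
      have k2 := ContinuousLinearMap.integral_apply i2 a
      have k3 := ContinuousLinearMap.integral_apply (i2.apply_continuousLinearMap a) c
      show (∫ q in (univ : Set SL(2, ℝ)) ×ˢ W,
        v q • fderiv ℝ (fderiv ℝ (QU.onC fun z => f z q)) (z : ℂ) ∂mP) a c = _
      rw [k2, k3]
      rfl
    have j2 : ∀ a c : ℂ, Integrable (fun q => v q *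
        fderiv ℝ (fderiv ℝ (QU.onC fun z => f z q)) (z : ℂ) a c)
        (mP.restrict ((univ : Set SL(2, ℝ)) ×ˢ W)) := by
      intro a c
      exact (i2.apply_continuousLinearMap a).apply_continuousLinearMap c
    show -(z.im ^ 2) • (fderiv ℝ (fderiv ℝ (QU.onC Φ)) (z : ℂ) 1 1 +
      fderiv ℝ (fderiv ℝ (QU.onC Φ)) (z : ℂ) Complex.I Complex.I) = _
    rw [e4 _ hz, k1, k1, ← integral_add (j2 _ _) (j2 _ _), ← integral_smul]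
    refine integral_congr_ae (Eventually.of_forall fun q => ?_)
    show -(z.im ^ 2) • (v q * fderiv ℝ (fderiv ℝ (QU.onC fun z => f z q)) (z : ℂ) 1 1 +
      v q * fderiv ℝ (fderiv ℝ (QU.onC fun z => f z q)) (z : ℂ) Complex.I Complex.I) =
      v q * (-(z.im ^ 2) • (fderiv ℝ (fderiv ℝ (QU.onC fun z => f z q)) (z : ℂ) 1 1 +
        fderiv ℝ (fderiv ℝ (QU.onC fun z => f z q)) (z : ℂ) Complex.I Complex.I))
    rw [mul_smul_comm, mul_add]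

/-! ## The beams -/

section beams

variable {ch : ℝ → ℝ} {ζ ζ1 R δ : ℝ} {Γ : Subgroup SL(2, ℝ)} {F : Set ℍ} {B : ℕ → ℝ} {D : Dyn}

theorem VFD_pv0 (hch : CH ch) (hR : 2 ≤ R) (hR4 : R ^ (-(1 / 2) + ζ1) ≤ 1 / 4) (t : ℝ)
    (p : SL(2, ℝ) × ℝ) {w : ℂ} (hw : 1 / 4 < ‖w‖) : pv D ch ζ ζ1 R t p w = 0 := by
  have hR0 : 0 < R := by linarith
  have h1 : 1 ≤ R ^ (1 - 2 * ζ1) * ‖w‖ ^ 2 := by
    have h2 : R ^ (1 - 2 * ζ1) * (R ^ (-(1 / 2) + ζ1)) ^ 2 = 1 := by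
      rw [← Real.rpow_natCast (R ^ (-(1 / 2) + ζ1)) 2, ← Real.rpow_mul hR0.le,
        ← Real.rpow_add hR0]
      have h3 : 1 - 2 * ζ1 + (-(1 / 2) + ζ1) * ((2 : ℕ) : ℝ) = 0 := by
        push_cast
        ring
      rw [h3, Real.rpow_zero]
    have h3 : (R ^ (-(1 / 2) + ζ1)) ^ 2 ≤ ‖w‖ ^ 2 :=
      pow_le_pow_left₀ (Real.rpow_nonneg hR0.le _) (by linarith) 2
    calc 1 = R ^ (1 - 2 * ζ1) * (R ^ (-(1 / 2) + ζ1)) ^ 2 := h2.symm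
      _ ≤ R ^ (1 - 2 * ζ1) * ‖w‖ ^ 2 := mul_le_mul_of_nonneg_left h3 (Real.rpow_nonneg hR0.le _)
  unfold pv
  rw [hch.zero _ h1]
  simp

theorem VFD_fz {E : Type} [NormedAddCommGroup E] [NormedSpace ℝ E] :
    fderiv ℝ (0 : ℂ → E) = 0 := by
  funext w
  exact congrFun (fderiv_zero (𝕜 := ℝ) (E := ℂ) (F := E)) w

theorem VFD_Er0 (hch : CH ch) (hR : 2 ≤ R) (hR4 : R ^ (-(1 / 2) + ζ1) ≤ 1 / 4) (t : ℝ)
    (p : SL(2, ℝ) × ℝ) {w : ℂ} (hw : 1 / 4 < ‖w‖) : Er D ch ζ ζ1 R t p w = 0 := by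
  have h1 : (fun s => pv D ch ζ ζ1 R s p w) = fun _ => 0 :=
    funext fun s => VFD_pv0 hch hR hR4 s p hw
  have h2 : pv D ch ζ ζ1 R t p =ᶠ[𝓝 w] 0 := by
    filter_upwards [(isOpen_lt continuous_const continuous_norm).mem_nhds hw] with w' hw'
    exact VFD_pv0 hch hR hR4 t p hw'
  have h3 : fderiv ℝ (pv D ch ζ ζ1 R t p) =ᶠ[𝓝 w] 0 := by
    have h4 : fderiv ℝ (pv D ch ζ ζ1 R t p) =ᶠ[𝓝 w] fderiv ℝ (0 : ℂ → ℂ) := h2.fderiv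
    rwa [VFD_fz] at h4
  have h5 : fderiv ℝ (fderiv ℝ (pv D ch ζ ζ1 R t p)) w = 0 := by
    rw [h3.fderiv_eq, VFD_fz]
    rfl
  unfold Er Lg lp2
  rw [h1, h5, h3.eq_of_nhds, h2.eq_of_nhds]
  simp

theorem VFD_dist (hVCD : VCD_stmt) (hHFA : HFA_stmt) (hD : OKD Γ δ B D) (hδ : δ ≤ 1 / 10) {s : ℝ}
    {z : ℍ} {q : SL(2, ℝ) × ℝ} (hq : |q.2| ≤ 1 / 8) (h : ‖cd ((D.fl q.2 s q.1)⁻¹ • z)‖ ≤ 1 / 4) :
    dist z (q.1 • I : ℍ) ≤ 1 / 2 + 6 / 5 * |s| := by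
  have h1 : dist ((D.fl q.2 s q.1)⁻¹ • z) I ≤ 2 * ‖cd ((D.fl q.2 s q.1)⁻¹ • z)‖ :=
    hVCD.2.2.2.2.2.2.1 _ (by linarith)
  have h2 : dist z (D.fl q.2 s q.1 • I : ℍ) = dist ((D.fl q.2 s q.1)⁻¹ • z) I := by
    rw [← dist_smul (D.fl q.2 s q.1) ((D.fl q.2 s q.1)⁻¹ • z) (I : ℍ), smul_inv_smul]
  have h3 : dist (D.fl q.2 s q.1 • I : ℍ) (q.1 • I) ≤ 6 / 5 * |s| :=
    (hHFA Γ δ B D hD hδ q.2 0 s hq q.1).2.2.2
  have h4 := dist_triangle z (D.fl q.2 s q.1 • I : ℍ) (q.1 • I)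
  linarith

theorem VFD_psi0 (hVCD : VCD_stmt) (hHFA : HFA_stmt) (hch : CH ch) (hR : 2 ≤ R)
    (hR4 : R ^ (-(1 / 2) + ζ1) ≤ 1 / 4) (hD : OKD Γ δ B D) (hδ : δ ≤ 1 / 10) {s : ℝ}
    {z : ℍ} {q : SL(2, ℝ) × ℝ} (hq : |q.2| ≤ 1 / 8)
    (h : 1 / 2 + 6 / 5 * |s| < dist z (q.1 • I : ℍ)) : psi D ch ζ ζ1 R s q =ᶠ[𝓝 z] 0 := by
  have h1 : IsOpen {z : ℍ | 1 / 2 + 6 / 5 * |s| < dist z (q.1 • I : ℍ)} :=
    isOpen_lt continuous_const (continuous_id.dist continuous_const)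
  filter_upwards [h1.mem_nhds h] with z' hz'
  show psi D ch ζ ζ1 R s q z' = 0
  refine VFD_pv0 hch hR hR4 s q ?_
  by_contra h2
  exact absurd (VFD_dist hVCD hHFA hD hδ hq (not_lt.1 h2)) (not_le.2 hz')

theorem VFD_kk {E : Type} [TopologicalSpace E] {G : ((SL(2, ℝ) × ℝ) × ℝ) × ℍ → E}
    (c : ContinuousOn G {x | |x.1.1.2| ≤ 1 / 8}) :
    ContinuousOn (fun x : (ℝ × ℍ) × (SL(2, ℝ) × ℝ) => G ((x.2, x.1.1), x.1.2))
      {x | |x.2.2| ≤ 1 / 8} := by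
  have hm : ContinuousOn (fun x : (ℝ × ℍ) × (SL(2, ℝ) × ℝ) =>
      (((x.2, x.1.1), x.1.2) : ((SL(2, ℝ) × ℝ) × ℝ) × ℍ)) {x | |x.2.2| ≤ 1 / 8} := by
    fun_prop
  have hmt : MapsTo (fun x : (ℝ × ℍ) × (SL(2, ℝ) × ℝ) =>
      (((x.2, x.1.1), x.1.2) : ((SL(2, ℝ) × ℝ) × ℝ) × ℍ)) {x | |x.2.2| ≤ 1 / 8}
      {x | |x.1.1.2| ≤ 1 / 8} := fun x hx => hx
  exact c.comp hm hmt

theorem VFD_cd (hVCD : VCD_stmt) (hD : OKD Γ δ B D) :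
    ContinuousOn (fun x : (ℝ × ℍ) × (SL(2, ℝ) × ℝ) =>
      cd ((D.fl x.2.2 x.1.1 x.2.1)⁻¹ • x.1.2)) {x | |x.2.2| ≤ 1 / 8} := by
  have hfl : ContinuousOn (fun x : (ℝ × ℍ) × (SL(2, ℝ) × ℝ) => D.fl x.2.2 x.1.1 x.2.1)
      {x | |x.2.2| ≤ 1 / 8} := by
    have h1 : ContinuousOn (fun x : (ℝ × ℍ) × (SL(2, ℝ) × ℝ) =>
        ((x.2.2, x.1.1, x.2.1) : ℝ × ℝ × SL(2, ℝ))) {x | |x.2.2| ≤ 1 / 8} := by
      fun_prop
    exact hD.cfl.comp h1 fun x hx => hx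
  have h1 : ContinuousOn (fun x : (ℝ × ℍ) × (SL(2, ℝ) × ℝ) =>
      (D.fl x.2.2 x.1.1 x.2.1)⁻¹ • x.1.2) {x | |x.2.2| ≤ 1 / 8} :=
    hfl.inv.smul (continuous_fst.snd).continuousOn
  exact hVCD.2.2.2.2.2.2.2.1.comp_continuousOn h1

theorem VFD_k6 (hVCD : VCD_stmt) (hD : OKD Γ δ B D) {G : ((SL(2, ℝ) × ℝ) × ℝ) × ℂ → ℂ}
    (c : ContinuousOn G {x | |x.1.1.2| ≤ 1 / 8}) :
    ContinuousOn (fun x : (ℝ × ℍ) × (SL(2, ℝ) × ℝ) =>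
      G ((x.2, x.1.1), cd ((D.fl x.2.2 x.1.1 x.2.1)⁻¹ • x.1.2))) {x | |x.2.2| ≤ 1 / 8} := by
  have hm : ContinuousOn (fun x : (ℝ × ℍ) × (SL(2, ℝ) × ℝ) =>
      ((x.2, x.1.1) : (SL(2, ℝ) × ℝ) × ℝ)) {x | |x.2.2| ≤ 1 / 8} := by
    fun_prop
  have hmt : MapsTo (fun x : (ℝ × ℍ) × (SL(2, ℝ) × ℝ) =>
      (((x.2, x.1.1), cd ((D.fl x.2.2 x.1.1 x.2.1)⁻¹ • x.1.2)) : ((SL(2, ℝ) × ℝ) × ℝ) × ℂ))
      {x | |x.2.2| ≤ 1 / 8} {x | |x.1.1.2| ≤ 1 / 8} := fun x hx => hx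
  exact c.comp (hm.prodMk (VFD_cd hVCD hD)) hmt

theorem VFD_fam1 (hVPR : VPR_stmt) (hVCD : VCD_stmt) (hHFA : HFA_stmt) (hch : CH ch)
    (h10 : 0 < ζ1) (h18 : ζ1 ≤ 1 / 8) (hR : 2 ≤ R)
    (hR4 : R ^ (-(1 / 2) + ζ1) ≤ 1 / 4) (hD : OKD Γ δ B D) (hδ : δ ≤ 1 / 10) :
    VFD_G univ (fun (x : ℝ × ℍ) q => psi D ch ζ ζ1 R x.1 q x.2) := by
  have k1 := VFD_kk (hVPR ch ζ ζ1 R δ Γ B D hch h10 h18 hR hD hδ).1
  refine VFD_mk (f := fun (x : ℝ × ℍ) q => psi D ch ζ ζ1 R x.1 q x.2) k1 fun s z q hq hne => ?_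
  by_contra h
  exact hne (VFD_zero (VFD_psi0 hVCD hHFA hch hR hR4 hD hδ hq (not_le.1 h))).1

theorem VFD_fam2 (hVPR : VPR_stmt) (hVCD : VCD_stmt) (hHFA : HFA_stmt) (hch : CH ch)
    (h10 : 0 < ζ1) (h18 : ζ1 ≤ 1 / 8) (hR : 2 ≤ R)
    (hR4 : R ^ (-(1 / 2) + ζ1) ≤ 1 / 4) (hD : OKD Γ δ B D) (hδ : δ ≤ 1 / 10) :
    VFD_G univ (fun (x : ℝ × ℍ) q => QU.lap (psi D ch ζ ζ1 R x.1 q) x.2) := by
  have k1 := VFD_kk (hVPR ch ζ ζ1 R δ Γ B D hch h10 h18 hR hD hδ).2.1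
  refine VFD_mk (f := fun (x : ℝ × ℍ) q => QU.lap (psi D ch ζ ζ1 R x.1 q) x.2) k1
    fun s z q hq hne => ?_
  by_contra h
  exact hne (VFD_zero (VFD_psi0 hVCD hHFA hch hR hR4 hD hδ hq (not_le.1 h))).2.2.2

theorem VFD_fam3 (hVPR : VPR_stmt) (hVCD : VCD_stmt) (hHFA : HFA_stmt) (hch : CH ch)
    (h10 : 0 < ζ1) (h18 : ζ1 ≤ 1 / 8) (hR : 2 ≤ R)
    (hR4 : R ^ (-(1 / 2) + ζ1) ≤ 1 / 4) (hD : OKD Γ δ B D) (hδ : δ ≤ 1 / 10) :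
    VFD_G univ (fun (x : ℝ × ℍ) q =>
      fderiv ℝ (QU.onC (psi D ch ζ ζ1 R x.1 q)) (x.2 : ℂ)) := by
  have k1 := VFD_kk (hVPR ch ζ ζ1 R δ Γ B D hch h10 h18 hR hD hδ).2.2.1
  refine VFD_mk (f := fun (x : ℝ × ℍ) q =>
    fderiv ℝ (QU.onC (psi D ch ζ ζ1 R x.1 q)) (x.2 : ℂ)) k1 fun s z q hq hne => ?_
  by_contra h
  exact hne (VFD_zero (VFD_psi0 hVCD hHFA hch hR hR4 hD hδ hq (not_le.1 h))).2.1

theorem VFD_fam4 (hVPR : VPR_stmt) (hVCD : VCD_stmt) (hHFA : HFA_stmt) (hch : CH ch)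
    (h10 : 0 < ζ1) (h18 : ζ1 ≤ 1 / 8) (hR : 2 ≤ R)
    (hR4 : R ^ (-(1 / 2) + ζ1) ≤ 1 / 4) (hD : OKD Γ δ B D) (hδ : δ ≤ 1 / 10) :
    VFD_G univ (fun (x : ℝ × ℍ) q =>
      fderiv ℝ (fderiv ℝ (QU.onC (psi D ch ζ ζ1 R x.1 q))) (x.2 : ℂ)) := by
  have k1 := VFD_kk (hVPR ch ζ ζ1 R δ Γ B D hch h10 h18 hR hD hδ).2.2.2.1
  refine VFD_mk (f := fun (x : ℝ × ℍ) q =>
    fderiv ℝ (fderiv ℝ (QU.onC (psi D ch ζ ζ1 R x.1 q))) (x.2 : ℂ)) k1 fun s z q hq hne => ?_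
  by_contra h
  exact hne (VFD_zero (VFD_psi0 hVCD hHFA hch hR hR4 hD hδ hq (not_le.1 h))).2.2.1

theorem VFD_fam5 (hVPR : VPR_stmt) (hVCD : VCD_stmt) (hHFA : HFA_stmt) (hch : CH ch)
    (h10 : 0 < ζ1) (h18 : ζ1 ≤ 1 / 8) (hR : 2 ≤ R)
    (hR4 : R ^ (-(1 / 2) + ζ1) ≤ 1 / 4) (hD : OKD Γ δ B D) (hδ : δ ≤ 1 / 10) :
    VFD_G univ (fun (x : ℝ × ℍ) q =>
      Er D ch ζ ζ1 R x.1 q (cd ((D.fl q.2 x.1 q.1)⁻¹ • x.2))) := by
  have k1 := VFD_k6 hVCD hD (hVPR ch ζ ζ1 R δ Γ B D hch h10 h18 hR hD hδ).2.2.2.2.2.1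
  refine VFD_mk (f := fun (x : ℝ × ℍ) q =>
    Er D ch ζ ζ1 R x.1 q (cd ((D.fl q.2 x.1 q.1)⁻¹ • x.2))) k1 fun s z q hq hne => ?_
  by_contra h
  refine hne (VFD_Er0 hch hR hR4 s q ?_)
  by_contra h2
  exact h (VFD_dist hVCD hHFA hD hδ hq (not_lt.1 h2))

end beams

theorem VFD_add {P E : Type} [TopologicalSpace P] [NormedAddCommGroup E] {S : Set P}
    {f g : P → SL(2, ℝ) × ℝ → E} (hf : VFD_G S f) (hg : VFD_G S g) :
    VFD_G S (fun p q => f p q + g p q) := by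
  refine ⟨hf.cont.add hg.cont, ?_⟩
  intro p0 hp0
  obtain ⟨N, hN, ρ, hρ⟩ := hf.supp p0 hp0
  obtain ⟨N', hN', ρ', hρ'⟩ := hg.supp p0 hp0
  refine ⟨N ∩ N', Filter.inter_mem hN hN', max ρ ρ', fun p hp hpS q hq hne => ?_⟩
  by_cases h : f p q = 0
  · have h2 : g p q ≠ 0 := by
      intro h3
      exact hne (by rw [h, h3, add_zero])
    exact (hρ' p hp.2 hpS q hq h2).trans (le_max_right _ _)
  · exact (hρ p hp.1 hpS q hq h).trans (le_max_left _ _)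

theorem VFD_cmul {P : Type} [TopologicalSpace P] {S : Set P}
    {f : P → SL(2, ℝ) × ℝ → ℂ} (c : ℂ) (hf : VFD_G S f) :
    VFD_G S (fun p q => c * f p q) := by
  refine ⟨continuousOn_const.mul hf.cont, ?_⟩
  intro p0 hp0
  obtain ⟨N, hN, ρ, hρ⟩ := hf.supp p0 hp0
  refine ⟨N, hN, ρ, fun p hp hpS q hq hne => hρ p hp hpS q hq fun h => hne ?_⟩
  rw [h, mul_zero]

theorem VFD_slice {E : Type} [NormedAddCommGroup E] (s : ℝ) {f : ℝ × ℍ → SL(2, ℝ) × ℝ → E}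
    (hf : VFD_G univ f) : VFD_G univ (fun (z : ℍ) q => f (s, z) q) :=
  VFD_comp (φ := fun z : ℍ => ((s, z) : ℝ × ℍ)) isOpen_univ hf
    (Continuous.prodMk_right s).continuousOn

theorem VFD_slice' {E : Type} [NormedAddCommGroup E] (z : ℍ) {f : ℝ × ℍ → SL(2, ℝ) × ℝ → E}
    (hf : VFD_G univ f) : VFD_G univ (fun (s : ℝ) q => f (s, z) q) :=
  VFD_comp (φ := fun s : ℝ => ((s, z) : ℝ × ℍ)) isOpen_univ hf
    (Continuous.prodMk_left z).continuousOn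

theorem VFD_invt {Γ : Subgroup SL(2, ℝ)} {F : Set ℍ} (hVDM : VDM_stmt) (hdm : Dm Γ F) {W : Set ℝ}
    (hW : IsCompact W) (hW8 : ∀ e ∈ W, |e| ≤ 1 / 8) {v : SL(2, ℝ) × ℝ → ℂ} (hv : FP Γ F v)
    {f : ℍ → SL(2, ℝ) × ℝ → ℂ} (hf : VFD_G univ f)
    (hi : ∀ (γ : Γ) (q : SL(2, ℝ) × ℝ) (z : ℍ), |q.2| ≤ 1 / 8 →
      f (γ • z) ((γ : SL(2, ℝ)) * q.1, q.2) = f z q) (γ : Γ) (z : ℍ) :
    ∫ q in (univ : Set SL(2, ℝ)) ×ˢ W, v q * f (γ • z) q ∂mP =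
      ∫ q in (univ : Set SL(2, ℝ)) ×ˢ W, v q * f z q ∂mP := by
  have hT := ((hVDM Γ F hdm).2.2.2.2 W hW.measurableSet).2.1 (γ : SL(2, ℝ))
  have h1 : AEStronglyMeasurable (fun q => v q * f (γ • z) q)
      (mP.restrict ((univ : Set SL(2, ℝ)) ×ˢ W)) := VFD_aesm hf hW hW8 hv.meas (mem_univ (γ • z))
  calc ∫ q in (univ : Set SL(2, ℝ)) ×ˢ W, v q * f (γ • z) q ∂mP
      = ∫ q, v q * f (γ • z) q ∂(Measure.map (fun p : SL(2, ℝ) × ℝ => ((γ : SL(2, ℝ)) * p.1, p.2))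
          (mP.restrict ((univ : Set SL(2, ℝ)) ×ˢ W))) := by rw [hT.map_eq]
    _ = ∫ q in (univ : Set SL(2, ℝ)) ×ˢ W, v ((γ : SL(2, ℝ)) * q.1, q.2) *
          f (γ • z) ((γ : SL(2, ℝ)) * q.1, q.2) ∂mP :=
        integral_map hT.measurable.aemeasurable (by rw [hT.map_eq]; exact h1)
    _ = ∫ q in (univ : Set SL(2, ℝ)) ×ˢ W, v q * f z q ∂mP := by
        refine setIntegral_congr_fun (VFD_win_meas hW) fun q hq => ?_
        show v ((γ : SL(2, ℝ)) * q.1, q.2) * f (γ • z) ((γ : SL(2, ℝ)) * q.1, q.2) = v q * f z q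
        rw [hv.inv γ q, hi γ q z (hW8 _ hq.2)]

theorem VFD_bs {Γ : Subgroup SL(2, ℝ)} {F : Set ℍ} (hdm : Dm Γ F) {W : Set ℝ}
    (hW8 : ∀ e ∈ W, |e| ≤ 1 / 8) {v : SL(2, ℝ) × ℝ → ℂ} (hv : FP Γ F v) (T : ℝ) :
    ∃ b : ℝ, ∀ s ∈ Icc 0 T, ∀ (f : SL(2, ℝ) × ℝ → ℂ), ∀ z ∈ F,
      (∀ q : SL(2, ℝ) × ℝ, |q.2| ≤ 1 / 8 → f q ≠ 0 → dist z (q.1 • I : ℍ) ≤ 1 / 2 + 6 / 5 * |s|) →
      (∫ q in (univ : Set SL(2, ℝ)) ×ˢ W, v q * f q ∂mP) ≠ 0 → dist z I ≤ b := by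
  rcases hdm with ⟨-, hN⟩ | ⟨-, hF⟩
  · obtain ⟨K, hK, hFK⟩ := hN.rel
    obtain ⟨b, hb⟩ := hK.isBounded.subset_closedBall (I : ℍ)
    exact ⟨b, fun s _ f z hz _ _ => hb (hFK hz)⟩
  · obtain ⟨b0, hb0⟩ := hv.supp
    refine ⟨b0 + 1 / 2 + 6 / 5 * T, fun s hs f z _ hf hne => ?_⟩
    by_contra hlt
    rw [not_le] at hlt
    apply hne
    refine setIntegral_eq_zero_of_forall_eq_zero fun q hq => ?_
    by_contra h0
    have h1 : v q ≠ 0 := left_ne_zero_of_mul h0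
    have h2 : f q ≠ 0 := right_ne_zero_of_mul h0
    have h3 := hb0 q (by rw [hF]; exact mem_univ _) h1
    have h4 := hf q (hW8 _ hq.2) h2
    have h5 := dist_triangle z (q.1 • I : ℍ) I
    have h6 : |s| ≤ T := by
      rw [abs_of_nonneg hs.1]
      exact hs.2
    linarith

theorem VFD_lin3 {μ : Measure (SL(2, ℝ) × ℝ)} {v f g h : SL(2, ℝ) × ℝ → ℂ}
    (i1 : Integrable (fun q => v q * f q) μ) (i2 : Integrable (fun q => v q * g q) μ)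
    (i3 : Integrable (fun q => v q * h q) μ) (c1 c2 c3 : ℂ) :
    ∫ q, v q • (c1 * f q + c2 * g q + c3 * h q) ∂μ =
      c1 * (∫ q, v q * f q ∂μ) + c2 * (∫ q, v q * g q ∂μ) + c3 * (∫ q, v q * h q ∂μ) := by
  have e : (fun q => v q • (c1 * f q + c2 * g q + c3 * h q)) =
      fun q => (c1 * (v q * f q) + c2 * (v q * g q)) + c3 * (v q * h q) := by
    funext q
    rw [smul_eq_mul]
    ring
  have j1 := i1.const_mul c1
  have j2 := i2.const_mul c2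
  have j3 := i3.const_mul c3
  have j12 : Integrable (fun q => c1 * (v q * f q) + c2 * (v q * g q)) μ := j1.add j2
  rw [e, integral_add j12 j3, integral_add j1 j2, integral_const_mul, integral_const_mul,
    integral_const_mul]

/-- **Row VFD**: evolution of synthesised beams -/
theorem VFD_proof (hVPR : VPR_stmt) (hVRM : VRM_stmt) (hHFA : HFA_stmt) (hVCD : VCD_stmt)
    (hVDM : VDM_stmt) : VFD_stmt := by
  intro ch ζ ζ1 R δ Γ F B D v hch hζ hζ1 h18 hR4 hRW hR hdm hD hδ hv T hT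
  have h10 : 0 < ζ1 := lt_of_lt_of_le hζ hζ1
  have hW : IsCompact (Wi 2 R) := isCompact_Icc
  have hW8 : ∀ e ∈ Wi 2 R, |e| ≤ 1 / 8 := by
    intro e he
    rw [abs_le]
    exact ⟨by linarith [he.1], by linarith [he.2]⟩
  obtain ⟨bv, hbv⟩ := hv.bdd
  have f1 := VFD_fam1 (ζ := ζ) hVPR hVCD hHFA hch h10 h18 hR hR4 hD hδ
  have f2 := VFD_fam2 (ζ := ζ) hVPR hVCD hHFA hch h10 h18 hR hR4 hD hδ
  have f3 := VFD_fam3 (ζ := ζ) hVPR hVCD hHFA hch h10 h18 hR hR4 hD hδ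
  have f4 := VFD_fam4 (ζ := ζ) hVPR hVCD hHFA hch h10 h18 hR hR4 hD hδ
  have f5 := VFD_fam5 (ζ := ζ) hVPR hVCD hHFA hch h10 h18 hR hR4 hD hδ
  have g1 : ∀ s : ℝ, VFD_G univ (fun (z : ℍ) q => psi D ch ζ ζ1 R s q z) := fun s =>
    (VFD_slice s f1 :)
  have g3 : ∀ s : ℝ, VFD_G univ (fun (z : ℍ) q => fderiv ℝ (QU.onC (psi D ch ζ ζ1 R s q)) (z : ℂ)) :=
    fun s => (VFD_slice s f3 :)
  have g4 : ∀ s : ℝ, VFD_G univ (fun (z : ℍ) q =>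
      fderiv ℝ (fderiv ℝ (QU.onC (psi D ch ζ ζ1 R s q))) (z : ℂ)) :=
    fun s => (VFD_slice s f4 :)
  have g5 : ∀ s : ℝ, VFD_G univ (fun (z : ℍ) q =>
      Er D ch ζ ζ1 R s q (cd ((D.fl q.2 s q.1)⁻¹ • z))) :=
    fun s => (VFD_slice s f5 :)
  have hrm : ∀ (q : SL(2, ℝ) × ℝ) (s : ℝ), |q.2| ≤ 1 / 8 → _ := fun q s hq =>
    (hVRM ch ζ ζ1 R δ Γ B D q s hch h10 h18 hR hD hδ hq).2
  have hC2 : ∀ s : ℝ, QU.CD 2 (fun z => ∫ q in (univ : Set SL(2, ℝ)) ×ˢ Wi 2 R,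
        v q * psi D ch ζ ζ1 R s q z ∂mP) ∧
      ∀ z, QU.lap (fun z => ∫ q in (univ : Set SL(2, ℝ)) ×ˢ Wi 2 R,
        v q * psi D ch ζ ζ1 R s q z ∂mP) z =
      ∫ q in (univ : Set SL(2, ℝ)) ×ˢ Wi 2 R, v q * QU.lap (psi D ch ζ ζ1 R s q) z ∂mP := fun s =>
    VFD_C2 (f := fun z q => psi D ch ζ ζ1 R s q z) (g1 s) (g3 s) (g4 s)
      (fun q hq => (hrm q s hq I).1) hW hW8 hv.meas hbv
  have C1 : Continuous (fun x : ℝ × ℍ => ∫ q in (univ : Set SL(2, ℝ)) ×ˢ Wi 2 R,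
      v q * psi D ch ζ ζ1 R x.1 q x.2 ∂mP) :=
    continuousOn_univ.1 (VFD_cont f1 hW hW8 hv.meas hbv :)
  have C2 : Continuous (fun x : ℝ × ℍ => ∫ q in (univ : Set SL(2, ℝ)) ×ˢ Wi 2 R,
      v q * QU.lap (psi D ch ζ ζ1 R x.1 q) x.2 ∂mP) :=
    continuousOn_univ.1 (VFD_cont f2 hW hW8 hv.meas hbv :)
  have C5 : Continuous (fun x : ℝ × ℍ => ∫ q in (univ : Set SL(2, ℝ)) ×ˢ Wi 2 R,
      v q * Er D ch ζ ζ1 R x.1 q (cd ((D.fl q.2 x.1 q.1)⁻¹ • x.2)) ∂mP) :=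
    continuousOn_univ.1 (VFD_cont f5 hW hW8 hv.meas hbv :)
  have hd1 : ∀ (s : ℝ) (z : ℍ) (q : SL(2, ℝ) × ℝ), |q.2| ≤ 1 / 8 →
      psi D ch ζ ζ1 R s q z ≠ 0 → dist z (q.1 • I : ℍ) ≤ 1 / 2 + 6 / 5 * |s| := by
    intro s z q hq hne
    by_contra h
    exact hne (VFD_zero (VFD_psi0 hVCD hHFA hch hR hR4 hD hδ hq (not_le.1 h))).1
  have hd5 : ∀ (s : ℝ) (z : ℍ) (q : SL(2, ℝ) × ℝ), |q.2| ≤ 1 / 8 →
      Er D ch ζ ζ1 R s q (cd ((D.fl q.2 s q.1)⁻¹ • z)) ≠ 0 →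
      dist z (q.1 • I : ℍ) ≤ 1 / 2 + 6 / 5 * |s| := by
    intro s z q hq hne
    by_contra h
    refine hne (VFD_Er0 hch hR hR4 s q ?_)
    by_contra h2
    exact h (VFD_dist hVCD hHFA hD hδ hq (not_lt.1 h2))
  have hinv := (hVPR ch ζ ζ1 R δ Γ B D hch h10 h18 hR hD hδ).2.2.2.2.2.2
  obtain ⟨b, hb⟩ := VFD_bs hdm hW8 hv T
  have hb1 : ∀ s ∈ Icc 0 T, ∀ z ∈ F, (∫ q in (univ : Set SL(2, ℝ)) ×ˢ Wi 2 R,
      v q * psi D ch ζ ζ1 R s q z ∂mP) ≠ 0 → dist z I ≤ b := fun s hs z hz hne =>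
    hb s hs (fun q => psi D ch ζ ζ1 R s q z) z hz (hd1 s z) hne
  have hb5 : ∀ s ∈ Icc 0 T, ∀ z ∈ F, (∫ q in (univ : Set SL(2, ℝ)) ×ˢ Wi 2 R,
      v q * Er D ch ζ ζ1 R s q (cd ((D.fl q.2 s q.1)⁻¹ • z)) ∂mP) ≠ 0 → dist z I ≤ b :=
    fun s hs z hz hne =>
      hb s hs (fun q => Er D ch ζ ζ1 R s q (cd ((D.fl q.2 s q.1)⁻¹ • z))) z hz (hd5 s z) hne
  have hFH1 : ∀ s ∈ Icc 0 T, FH Γ F (fun z => ∫ q in (univ : Set SL(2, ℝ)) ×ˢ Wi 2 R,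
      v q * psi D ch ζ ζ1 R s q z ∂mP) := by
    intro s hs
    refine ⟨?_, ?_, b, hb1 s hs⟩
    · exact (C1.comp (Continuous.prodMk_right s) :)
    · intro γ z
      exact VFD_invt hVDM hdm hW hW8 hv (g1 s) (fun γ q z _ => (hinv γ q s).2.2.2 z) γ z
  have hFH5 : ∀ s ∈ Icc 0 T, FH Γ F (fun z => ∫ q in (univ : Set SL(2, ℝ)) ×ˢ Wi 2 R,
      v q * Er D ch ζ ζ1 R s q (cd ((D.fl q.2 s q.1)⁻¹ • z)) ∂mP) := by
    intro s hs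
    refine ⟨?_, ?_, b, hb5 s hs⟩
    · exact (C5.comp (Continuous.prodMk_right s) :)
    · intro γ z
      refine VFD_invt hVDM hdm hW hW8 hv (g5 s) (fun γ q z _ => ?_) γ z
      obtain ⟨i1, -, i3, -⟩ := hinv γ q s
      show Er D ch ζ ζ1 R s ((γ : SL(2, ℝ)) * q.1, q.2)
        (cd ((D.fl q.2 s ((γ : SL(2, ℝ)) * q.1))⁻¹ • ((γ : SL(2, ℝ)) • z))) = _
      rw [i3, i1, mul_inv_rev, mul_smul, inv_smul_smul]
  refine ⟨b, fun s hs => ⟨hFH1 s hs, (hC2 s).1, hFH5 s hs⟩, ?_, C1.continuousOn, ?_,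
    C5.continuousOn, ?_⟩
  · intro s hs z hz hne
    rcases hne with hne | hne
    · exact hb1 s hs z hz hne
    · exact hb5 s hs z hz hne
  · exact C2.continuousOn.congr fun x _ => (hC2 x.1).2 x.2
  · intro s hs z
    set c1 : ℂ := -(Complex.I * (((2 * R)⁻¹ : ℝ) : ℂ)) with hc1
    set c2 : ℂ := Complex.I * (((2 * R)⁻¹ : ℝ) : ℂ) * ((R ^ 2 * D.U z : ℝ) : ℂ) with hc2
    have q1 : VFD_G univ (fun (r : ℝ) q => psi D ch ζ ζ1 R r q z) := (VFD_slice' z f1 :)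
    have q2 : VFD_G univ (fun (r : ℝ) q => QU.lap (psi D ch ζ ζ1 R r q) z) := (VFD_slice' z f2 :)
    have q5 : VFD_G univ (fun (r : ℝ) q => Er D ch ζ ζ1 R r q (cd ((D.fl q.2 r q.1)⁻¹ • z))) :=
      (VFD_slice' z f5 :)
    have q6 : VFD_G univ (fun (r : ℝ) q => c1 * QU.lap (psi D ch ζ ζ1 R r q) z +
        c2 * psi D ch ζ ζ1 R r q z +
        -Complex.I * Er D ch ζ ζ1 R r q (cd ((D.fl q.2 r q.1)⁻¹ • z))) :=
      (VFD_add (VFD_add (VFD_cmul c1 q2) (VFD_cmul c2 q1)) (VFD_cmul (-Complex.I) q5) :)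
    have hd : ∀ (r : ℝ) (q : SL(2, ℝ) × ℝ), |q.2| ≤ 1 / 8 →
        HasDerivAt (fun r => psi D ch ζ ζ1 R r q z) (c1 * QU.lap (psi D ch ζ ζ1 R r q) z +
        c2 * psi D ch ζ ζ1 R r q z +
        -Complex.I * Er D ch ζ ζ1 R r q (cd ((D.fl q.2 r q.1)⁻¹ • z))) r := by
      intro r q hq
      have h1 := (hrm q r hq z).2
      have h2 : -(Complex.I * Hop D.U R (psi D ch ζ ζ1 R r q) z) -
          Complex.I * Er D ch ζ ζ1 R r q (cd ((D.fl q.2 r q.1)⁻¹ • z)) =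
          c1 * QU.lap (psi D ch ζ ζ1 R r q) z + c2 * psi D ch ζ ζ1 R r q z +
          -Complex.I * Er D ch ζ ζ1 R r q (cd ((D.fl q.2 r q.1)⁻¹ • z)) := by
        rw [hc1, hc2, Hop]
        ring
      rw [← h2]
      exact h1
    have hder := VFD_deriv (f := fun r q => psi D ch ζ ζ1 R r q z) q1 q6 hd hW hW8 hv.meas hbv s
    have i1 := VFD_int q1 hW hW8 hv.meas hbv (mem_univ s)
    have i2 := VFD_int q2 hW hW8 hv.meas hbv (mem_univ s)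
    have i5 := VFD_int q5 hW hW8 hv.meas hbv (mem_univ s)
    have hint : ∫ q in (univ : Set SL(2, ℝ)) ×ˢ Wi 2 R, v q • (c1 * QU.lap (psi D ch ζ ζ1 R s q) z +
        c2 * psi D ch ζ ζ1 R s q z +
        -Complex.I * Er D ch ζ ζ1 R s q (cd ((D.fl q.2 s q.1)⁻¹ • z))) ∂mP =
        c1 * (∫ q in (univ : Set SL(2, ℝ)) ×ˢ Wi 2 R, v q * QU.lap (psi D ch ζ ζ1 R s q) z ∂mP) +
        c2 * (∫ q in (univ : Set SL(2, ℝ)) ×ˢ Wi 2 R, v q * psi D ch ζ ζ1 R s q z ∂mP) +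
        -Complex.I * (∫ q in (univ : Set SL(2, ℝ)) ×ˢ Wi 2 R,
          v q * Er D ch ζ ζ1 R s q (cd ((D.fl q.2 s q.1)⁻¹ • z)) ∂mP) :=
      VFD_lin3 i2 i1 i5 c1 c2 (-Complex.I)
    rw [hint] at hder
    have hfin : -(Complex.I * Hop D.U R (fun z => ∫ q in GW 2 R, v q * psi D ch ζ ζ1 R s q z ∂mP) z) +
        -(Complex.I * sF D R s (fun q => Er D ch ζ ζ1 R s q) v z) =
        c1 * (∫ q in (univ : Set SL(2, ℝ)) ×ˢ Wi 2 R, v q * QU.lap (psi D ch ζ ζ1 R s q) z ∂mP) +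
        c2 * (∫ q in (univ : Set SL(2, ℝ)) ×ˢ Wi 2 R, v q * psi D ch ζ ζ1 R s q z ∂mP) +
        -Complex.I * (∫ q in (univ : Set SL(2, ℝ)) ×ˢ Wi 2 R,
          v q * Er D ch ζ ζ1 R s q (cd ((D.fl q.2 s q.1)⁻¹ • z)) ∂mP) := by
      have h1 : QU.lap (fun z => ∫ q in GW 2 R, v q * psi D ch ζ ζ1 R s q z ∂mP) z =
        ∫ q in (univ : Set SL(2, ℝ)) ×ˢ Wi 2 R, v q * QU.lap (psi D ch ζ ζ1 R s q) z ∂mP :=
        (hC2 s).2 z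
      have h2 : sF D R s (fun q => Er D ch ζ ζ1 R s q) v z =
        ∫ q in (univ : Set SL(2, ℝ)) ×ˢ Wi 2 R,
          v q * Er D ch ζ ζ1 R s q (cd ((D.fl q.2 s q.1)⁻¹ • z)) ∂mP := rfl
      rw [Hop, h1, h2, hc1, hc2]
      show _ = -(Complex.I * (((2 * R)⁻¹ : ℝ) : ℂ)) * _ +
        Complex.I * (((2 * R)⁻¹ : ℝ) : ℂ) * ((R ^ 2 * D.U z : ℝ) : ℂ) *
          (∫ q in GW 2 R, v q * psi D ch ζ ζ1 R s q z ∂mP) + _
      ring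
    rw [hfin]
    exact hder

end

end Pool.Agent.VQ
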